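import Pool.Agent.H22.FOT.Defs2
import Pool.Agent.H22.FOT.SM2

/-! # FOG CHR: the density of a cherry -/

set_option autoImplicit false

open MeasureTheory Set

namespace Pool.FOT

open Sm2Aux

theorem t_chr (hEVT : EVTStmt) : CHRStmt := by
  classical
  intro V Ω _ _ _ μ _ f κ hf v w z hvw hvz hwz
  have hm := hf.meas
  have hb := hf.bdd
  have hne : s(v, w) ≠ s(v, z) := by
    intro h
    rw [Sym2.eq_iff] at h
    rcases h with h | h
    · exact hwz h.2
    · exact hvz h.1
  unfold sDens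
  simp_rw [Finset.prod_pair hne, sVal_mk]
  have hg : Measurable (fun z : Ω × (Ω × Ω) => f z.1 z.2.1 * f z.1 z.2.2) := by
    have m1 : Measurable (fun z : Ω × (Ω × Ω) => (z.1, z.2.1)) := by fun_prop
    have m2 : Measurable (fun z : Ω × (Ω × Ω) => (z.1, z.2.2)) := by fun_prop
    exact (hm.comp m1).mul (hm.comp m2)
  rw [integral_mp (hEVT V Ω μ v w z hvw hvz hwz)
    (g := fun z : Ω × (Ω × Ω) => f z.1 z.2.1 * f z.1 z.2.2) hg]
  have hi : Integrable (fun z : Ω × (Ω × Ω) => f z.1 z.2.1 * f z.1 z.2.2)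
      (μ.prod (μ.prod μ)) := by
    refine Integrable.of_bound hg.aestronglyMeasurable 1 (Filter.Eventually.of_forall fun z => ?_)
    rw [Real.norm_eq_abs, abs_mul]
    exact mul_le_one₀ (hb _ _) (abs_nonneg _) (hb _ _)
  rw [integral_prod _ hi]
  refine integral_congr_ae (Filter.Eventually.of_forall fun s => ?_)
  show ∫ y : Ω × Ω, f s y.1 * f s y.2 ∂(μ.prod μ) = (∫ y, f s y ∂μ) ^ 2
  rw [integral_prod_mul (fun t => f s t) (fun t => f s t), sq]

end Pool.FOT
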