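import Pool.Agent.H22.FOT.Defs2

/-! # FOG GEV: even girth -/

set_option autoImplicit false

namespace Pool.FOT

namespace Geva

theorem mem_edges {V : Type} [Fintype V] (H : SimpleGraph V) (a b : V) :
    s(a, b) ∈ edges H ↔ H.Adj a b := by
  classical
  unfold edges
  rw [SimpleGraph.mem_edgeFinset, SimpleGraph.mem_edgeSet]

theorem contained_iff {V : Type} [Fintype V] (H : SimpleGraph V) (n : ℕ) :
    (∃ c : Fin (n + 3) → V, CycIn (edges H) n c) ↔
      (SimpleGraph.cycleGraph (n + 3)).IsContained H := by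
  constructor
  · rintro ⟨c, hc, hadj⟩
    refine ⟨⟨⟨c, ?_⟩, hc⟩⟩
    intro a b hab
    rw [SimpleGraph.cycleGraph_adj] at hab
    rcases hab with h | h
    · have h1 := hadj b
      rw [← h, add_sub_cancel, mem_edges] at h1
      exact h1.symm
    · have h1 := hadj a
      rw [← h, add_sub_cancel, mem_edges] at h1
      exact h1
  · rintro ⟨f⟩
    refine ⟨f, f.injective, fun i => ?_⟩
    rw [mem_edges]
    refine f.toHom.map_adj ?_
    rw [SimpleGraph.cycleGraph_adj]
    exact Or.inr (by rw [add_sub_cancel_left])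

end Geva

open Geva

theorem t_gev : GEVStmt := by
  intro V _ H hev
  by_cases hac : H.IsAcyclic
  · left
    intro n c hc
    obtain ⟨u, w, hw, _⟩ := (SimpleGraph.cycleGraph_isContained_iff (by omega)).1
      ((contained_iff H n).1 ⟨c, hc⟩)
    exact hac w hw
  · right
    obtain ⟨a, w, hw, hlen⟩ := SimpleGraph.exists_girth_eq_length.2 hac
    have h3 := SimpleGraph.three_le_girth hac
    obtain ⟨r, hr⟩ := hev
    refine ⟨r, by omega, fun n c hc => ?_, H.girth - 3, ?_⟩
    · obtain ⟨u, w', hw', hl'⟩ := (SimpleGraph.cycleGraph_isContained_iff (by omega)).1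
        ((contained_iff H n).1 ⟨c, hc⟩)
      have := SimpleGraph.girth_le_length hw'
      omega
    · have hc : (SimpleGraph.cycleGraph (H.girth - 3 + 3)).IsContained H :=
        (SimpleGraph.cycleGraph_isContained_iff (by omega)).2 ⟨a, w, hw, by omega⟩
      obtain ⟨c, hc⟩ := (contained_iff H _).2 hc
      exact ⟨c, hc, by omega⟩

end Pool.FOT
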