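import Pool.Agent.H22.FOT.Defs2
import Pool.Agent.H97.FOT.Gen

/-! # FOG K23: a 4-cycle and a vertex joined to two opposite vertices of it -/

set_option autoImplicit false

open MeasureTheory Set

namespace Pool.FOT

namespace K23a

open H97

variable {V Ω : Type} [Fintype V] [DecidableEq V] [MeasurableSpace Ω]

/-- The integral of the product over `C` in the coordinate `v`. -/
noncomputable def SS (μ : Measure Ω) (f : Ω → Ω → ℝ) (hf : ∀ x y, f x y = f y x)
    (C : Finset (Sym2 V)) (v : V) (x : V → Ω) : ℝ :=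
  ∫ t, ∏ e ∈ C, sVal f hf (Function.update x v t) e ∂μ

theorem resample (hU : UPDStmt) (μ : Measure Ω) [IsProbabilityMeasure μ] (v : V)
    {F : (V → Ω) → ℝ} (hF : Measurable F) {C : ℝ} (hC : ∀ x, |F x| ≤ C) :
    ∫ x, F x ∂(Measure.pi fun _ => μ) =
      ∫ x : V → Ω, (∫ t, F (Function.update x v t) ∂μ) ∂(Measure.pi fun _ => μ) := by
  have hU1 := hU V Ω μ v
  conv_lhs => rw [← hU1.map_eq, integral_map hU1.measurable.aemeasurable hF.aestronglyMeasurable]
  exact integral_prod _ (intb (hF.comp hU1.measurable) (C := C) fun z => hC _)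

theorem SS_meas (hU : UPDStmt) (μ : Measure Ω) [IsProbabilityMeasure μ] {f : Ω → Ω → ℝ}
    (hf : ∀ x y, f x y = f y x) (hm : Measurable (fun z : Ω × Ω => f z.1 z.2))
    (C : Finset (Sym2 V)) (v : V) : Measurable (SS μ f hf C v) := by
  have h1 : Measurable (fun z : (V → Ω) × Ω =>
      ∏ e ∈ C, sVal f hf (Function.update z.1 v z.2) e) :=
    (prod_meas hf hm C).comp (hU V Ω μ v).measurable
  exact (h1.stronglyMeasurable.integral_prod_right').measurable

theorem SS_abs (μ : Measure Ω) [IsProbabilityMeasure μ] {f : Ω → Ω → ℝ}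
    (hf : ∀ x y, f x y = f y x) (h1 : ∀ x y, |f x y| ≤ 1)
    (C : Finset (Sym2 V)) (v : V) (x : V → Ω) : |SS μ f hf C v x| ≤ 1 := by
  have := norm_integral_le_of_norm_le_const (μ := μ) (C := 1)
    (f := fun t => ∏ e ∈ C, sVal f hf (Function.update x v t) e)
    (Filter.Eventually.of_forall fun t => by
      rw [Real.norm_eq_abs]
      exact prod_abs hf h1 _ C)
  simpa [SS, Real.norm_eq_abs] using this

theorem prod_update {f : Ω → Ω → ℝ} (hf : ∀ x y, f x y = f y x) (C : Finset (Sym2 V)) (w : V)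
    (hC : ∀ e ∈ C, w ∉ e) (x : V → Ω) (s : Ω) :
    ∏ e ∈ C, sVal f hf (Function.update x w s) e = ∏ e ∈ C, sVal f hf x e :=
  Finset.prod_congr rfl fun e he => sVal_update hf x w s e (hC e he)

theorem SS_update (μ : Measure Ω) {f : Ω → Ω → ℝ} (hf : ∀ x y, f x y = f y x)
    (C : Finset (Sym2 V)) (v w : V) (hvw : v ≠ w) (hC : ∀ e ∈ C, w ∉ e) (x : V → Ω) (s : Ω) :
    SS μ f hf C v (Function.update x w s) = SS μ f hf C v x := by
  unfold SS
  congr 1
  funext t
  rw [Function.update_comm hvw.symm, prod_update hf C w hC]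

/-- Peeling off the edges at `v`. -/
theorem peel (hU : UPDStmt) (μ : Measure Ω) [IsProbabilityMeasure μ] {f : Ω → Ω → ℝ}
    (hf : ∀ x y, f x y = f y x) (hm : Measurable (fun z : Ω × Ω => f z.1 z.2))
    (h1 : ∀ x y, |f x y| ≤ 1) (B : Finset (Sym2 V)) (v : V) (Q : (V → Ω) → ℝ)
    (hQ : Measurable Q) (hQ1 : ∀ x, |Q x| ≤ 1) (hQv : ∀ x t, Q (Function.update x v t) = Q x) :
    ∫ x, Q x * ∏ e ∈ B, sVal f hf x e ∂(Measure.pi fun _ => μ) =
      ∫ x, (Q x * SS μ f hf (B.filter fun e => v ∈ e) v x) *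
        ∏ e ∈ B.filter (fun e => v ∉ e), sVal f hf x e ∂(Measure.pi fun _ => μ) := by
  rw [resample hU μ v (F := fun x => Q x * ∏ e ∈ B, sVal f hf x e)
    (hQ.mul (prod_meas hf hm B)) (C := 1) fun x => by
    rw [abs_mul]
    exact mul_le_one₀ (hQ1 x) (abs_nonneg _) (prod_abs hf h1 x B)]
  refine integral_congr_ae (Filter.Eventually.of_forall fun x => ?_)
  show ∫ t, Q (Function.update x v t) * ∏ e ∈ B, sVal f hf (Function.update x v t) e ∂μ = _
  have e1 : ∀ t, Q (Function.update x v t) * ∏ e ∈ B, sVal f hf (Function.update x v t) e =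
      (Q x * ∏ e ∈ B.filter (fun e => v ∉ e), sVal f hf x e) *
        ∏ e ∈ B.filter (fun e => v ∈ e), sVal f hf (Function.update x v t) e := by
    intro t
    rw [hQv, ← Finset.prod_filter_mul_prod_filter_not B (fun e => v ∈ e),
      prod_update hf (B.filter fun e => v ∉ e) v (fun e he => (Finset.mem_filter.1 he).2)]
    ring
  simp only [e1]
  rw [integral_const_mul]
  simp only [SS]
  ring

/-- The integral over a vertex with an edge is at most `κ`. -/
theorem SS_le (μ : Measure Ω) [IsProbabilityMeasure μ] {f : Ω → Ω → ℝ} {κ : ℝ}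
    (hf : FOk μ f κ) (C : Finset (Sym2 V)) (b w : V) (hbw : b ≠ w) (hC : s(b, w) ∈ C)
    (x : V → Ω) : |SS μ f hf.symm C b x| ≤ κ := by
  unfold SS
  refine (abs_integral_le_integral_abs).trans ?_
  have hi : Integrable (fun t => |f (x w) t|) μ :=
    intb (hf.meas.comp (measurable_const.prodMk measurable_id)).abs (C := 1) fun t => by
      rw [abs_abs]
      exact hf.bdd _ _
  refine (integral_mono_of_nonneg (Filter.Eventually.of_forall fun t => abs_nonneg _) hi
    (Filter.Eventually.of_forall fun t => ?_)).trans (hf.row (x w))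
  show |∏ e ∈ C, sVal f hf.symm (Function.update x b t) e| ≤ |f (x w) t|
  have hs : ({s(b, w)} : Finset (Sym2 V)) ⊆ C := Finset.singleton_subset_iff.2 hC
  refine (prod_abs_mono hf.symm hf.bdd _ hs).trans ?_
  rw [Finset.prod_singleton, sVal_mk, Function.update_self, Function.update_of_ne hbw.symm,
    hf.symm]

/-- The square of the integral over the middle vertex of a cherry with other edges. -/
theorem SS_sq (hU : UPDStmt) (hN : NLEStmt) (μ : Measure Ω) [IsProbabilityMeasure μ]
    {f : Ω → Ω → ℝ} {κ : ℝ} (hf : FOk μ f κ) (C : Finset (Sym2 V)) (u v w : V)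
    (huv : u ≠ v) (hvw : v ≠ w) (huw : u ≠ w) (hCv : ∀ e ∈ C, v ∈ e)
    (h1 : s(u, v) ∈ C) (h2 : s(v, w) ∈ C) :
    ∫ x, SS μ f hf.symm C v x ^ 2 ∂(Measure.pi fun _ => μ) ≤ cyT μ f 2 := by
  have hmS : Measurable (fun x => SS μ f hf.symm C v x ^ 2) :=
    (SS_meas hU μ hf.symm hf.meas C v).pow_const 2
  have hbS : ∀ x, |SS μ f hf.symm C v x ^ 2| ≤ 1 := fun x => by
    rw [abs_pow]
    exact pow_le_one₀ (abs_nonneg _) (SS_abs μ hf.symm hf.bdd C v x)
  have hup : Measurable (fun z : (V → Ω) × Ω => Function.update z.1 w z.2) :=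
    (hU V Ω μ w).measurable
  have hmS' : Measurable (fun x => ∫ t, SS μ f hf.symm C v (Function.update x w t) ^ 2 ∂μ) :=
    ((hmS.comp hup).stronglyMeasurable.integral_prod_right').measurable
  have hbS' : ∀ x, |∫ t, SS μ f hf.symm C v (Function.update x w t) ^ 2 ∂μ| ≤ 1 := by
    intro x
    have := norm_integral_le_of_norm_le_const (μ := μ) (C := 1)
      (f := fun t => SS μ f hf.symm C v (Function.update x w t) ^ 2)
      (Filter.Eventually.of_forall fun t => by
        rw [Real.norm_eq_abs]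
        exact hbS _)
    simpa [Real.norm_eq_abs] using this
  rw [resample hU μ w hmS hbS, resample hU μ u hmS' hbS']
  have key : ∀ x : V → Ω, ∫ s, (∫ t, SS μ f hf.symm C v
      (Function.update (Function.update x u s) w t) ^ 2 ∂μ) ∂μ ≤ cyT μ f 2 := by
    intro x
    set C' := (C.erase s(u, v)).erase s(v, w) with hC'
    set g : Ω → ℝ := fun t => ∏ e ∈ C', sVal f hf.symm (Function.update x v t) e with hg
    have hgm : Measurable g :=
      (prod_meas hf.symm hf.meas C').comp
        ((hU V Ω μ v).measurable.comp (measurable_const.prodMk measurable_id))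
    have hgW : WOk [g] := by
      intro τ hτ
      rw [List.mem_singleton] at hτ
      rw [hτ]
      exact ⟨hgm, fun t => prod_abs hf.symm hf.bdd _ C'⟩
    have hne : s(v, w) ≠ s(u, v) := by
      intro h
      rw [Sym2.eq_iff] at h
      rcases h with h | h
      · exact huv h.1.symm
      · exact huw h.2.symm
    have hmem : s(v, w) ∈ C.erase s(u, v) := Finset.mem_erase.2 ⟨hne, h2⟩
    have e1 : ∀ s t, SS μ f hf.symm C v (Function.update (Function.update x u s) w t) =
        pth μ f [g] s t := by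
      intro s t
      show ∫ z, ∏ e ∈ C, sVal f hf.symm
        (Function.update (Function.update (Function.update x u s) w t) v z) e ∂μ =
        ∫ z, f s z * (g z * f z t) ∂μ
      refine integral_congr_ae (Filter.Eventually.of_forall fun z => ?_)
      show ∏ e ∈ C, sVal f hf.symm
        (Function.update (Function.update (Function.update x u s) w t) v z) e =
        f s z * (g z * f z t)
      rw [← Finset.mul_prod_erase C _ h1, ← Finset.mul_prod_erase _ _ hmem]
      have e2 : ∏ e ∈ (C.erase s(u, v)).erase s(v, w), sVal f hf.symm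
          (Function.update (Function.update (Function.update x u s) w t) v z) e = g z := by
        rw [hg]
        refine Finset.prod_congr rfl fun e he => ?_
        have he' := Finset.mem_erase.1 he
        have he'' := Finset.mem_erase.1 he'.2
        have hv := hCv e he''.2
        have hu : u ∉ e := by
          intro hu
          exact he''.1 ((Sym2.mem_and_mem_iff huv).1 ⟨hu, hv⟩)
        have hw : w ∉ e := by
          intro hw
          exact he'.1 ((Sym2.mem_and_mem_iff hvw).1 ⟨hv, hw⟩)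
        rw [Function.update_comm hvw.symm, sVal_update hf.symm _ w t e hw,
          Function.update_comm huv, sVal_update hf.symm _ u s e hu]
      rw [e2, sVal_mk, sVal_mk, Function.update_self, Function.update_of_ne hvw.symm,
        Function.update_of_ne huv, Function.update_self, Function.update_of_ne huw,
        Function.update_self]
      ring
    have hpm : Measurable (fun z : Ω × Ω => pth μ f [g] z.1 z.2) := by
      have h3 : Measurable (fun z : Ω × Ω => SS μ f hf.symm C v
          (Function.update (Function.update x u z.1) w z.2)) := by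
        refine (SS_meas hU μ hf.symm hf.meas C v).comp ?_
        have h4 : Measurable (fun z : Ω × Ω => (Function.update x u z.1, z.2)) :=
          ((hU V Ω μ u).measurable.comp (measurable_const.prodMk measurable_fst)).prodMk
            measurable_snd
        exact hup.comp h4
      have h5 : (fun z : Ω × Ω => SS μ f hf.symm C v
          (Function.update (Function.update x u z.1) w z.2)) =
          fun z : Ω × Ω => pth μ f [g] z.1 z.2 := by
        funext z
        exact e1 _ _
      rwa [h5] at h3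
    have hpb : ∀ z : Ω × Ω, |pth μ f [g] z.1 z.2 ^ 2| ≤ 1 := by
      intro z
      rw [← e1]
      exact hbS _
    have e3 : ∫ s, (∫ t, SS μ f hf.symm C v
        (Function.update (Function.update x u s) w t) ^ 2 ∂μ) ∂μ = pN μ f [g] := by
      simp only [e1]
      unfold pN
      rw [integral_prod _ (intb (hpm.pow_const 2) hpb)]
    rw [e3]
    exact hN Ω μ f hf.symm hf.meas hf.bdd [g] hgW
  have hI : ∫ x : V → Ω, (∫ s, (∫ t, SS μ f hf.symm C v
      (Function.update (Function.update x u s) w t) ^ 2 ∂μ) ∂μ) ∂(Measure.pi fun _ => μ) ≤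
      ∫ x : V → Ω, cyT μ f 2 ∂(Measure.pi fun _ => μ) := by
    refine integral_mono_of_nonneg (Filter.Eventually.of_forall fun x => ?_)
      (integrable_const _) (Filter.Eventually.of_forall key)
    exact integral_nonneg fun s => integral_nonneg fun t => sq_nonneg _
  rwa [integral_const, probReal_univ, one_smul] at hI

end K23a

open H97 K23a

theorem t_k23 (hN : NLEStmt) (hU : UPDStmt) : K23Stmt := by
  classical
  intro V Ω _ _ μ _ A f κ hf hd v₁ v₂ v₃ v₄ b hnd h12 h23 h34 h41 hb1 hb3 h24 h2b h4b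
  simp only [List.nodup_cons, List.mem_cons, List.not_mem_nil, or_false, not_or,
    List.nodup_nil, not_false_eq_true, and_true] at hnd
  obtain ⟨⟨n12, n13, n14, n1b⟩, ⟨n23, n24, n2b⟩, ⟨n34, n3b⟩, n4b⟩ := hnd
  have hκ : 0 ≤ κ := (integral_nonneg fun y => abs_nonneg _).trans
    (hf.row (Classical.choice (by
      by_contra h
      rw [not_nonempty_iff] at h
      have h0 : μ = 0 := by
        have : (univ : Set Ω) = ∅ := Set.univ_eq_empty_iff.2 h
        exact Measure.measure_univ_eq_zero.1 (by rw [this, measure_empty])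
      have h1 := measure_univ (μ := μ)
      rw [h0] at h1
      simp at h1)))
  set A2 := A.filter fun e => v₂ ∈ e with hA2
  set B2 := A.filter fun e => v₂ ∉ e with hB2
  set A4 := B2.filter fun e => v₄ ∈ e with hA4
  set B4 := B2.filter fun e => v₄ ∉ e with hB4
  set Ab := B4.filter fun e => b ∈ e with hAb
  set Bb := B4.filter fun e => b ∉ e with hBb
  have hm := hf.meas
  have h1 := hf.bdd
  have m24 : ∀ e ∈ A2, v₄ ∉ e := by
    intro e he h
    have he' := Finset.mem_filter.1 he
    have h' := (Sym2.mem_and_mem_iff n24).1 ⟨he'.2, h⟩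
    rw [h'] at he'
    exact h24 he'.1
  have m2b : ∀ e ∈ A2, b ∉ e := by
    intro e he h
    have he' := Finset.mem_filter.1 he
    have h' := (Sym2.mem_and_mem_iff n2b).1 ⟨he'.2, h⟩
    rw [h'] at he'
    exact h2b he'.1
  have m4b : ∀ e ∈ A4, b ∉ e := by
    intro e he h
    have he' := Finset.mem_filter.1 he
    have he'' := Finset.mem_filter.1 he'.1
    have h' := (Sym2.mem_and_mem_iff n4b).1 ⟨he'.2, h⟩
    rw [h'] at he''
    exact h4b he''.1
  have e0 : sDens μ A f hf.symm = ∫ x, (SS μ f hf.symm A2 v₂ x * SS μ f hf.symm A4 v₄ x *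
      SS μ f hf.symm Ab b x) * ∏ e ∈ Bb, sVal f hf.symm x e ∂(Measure.pi fun _ => μ) := by
    have p1 := peel hU μ hf.symm hm h1 A v₂ (fun _ => 1) measurable_const
      (fun x => by simp) (fun x t => rfl)
    have p2 := peel hU μ hf.symm hm h1 B2 v₄ (fun x => 1 * SS μ f hf.symm A2 v₂ x)
      ((SS_meas hU μ hf.symm hm A2 v₂).const_mul 1)
      (fun x => by
        rw [one_mul]
        exact SS_abs μ hf.symm h1 A2 v₂ x)
      (fun x t => by
        simp only [one_mul]
        exact SS_update μ hf.symm A2 v₂ v₄ n24 m24 x t)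
    have p3 := peel hU μ hf.symm hm h1 B4 b
      (fun x => 1 * SS μ f hf.symm A2 v₂ x * SS μ f hf.symm A4 v₄ x)
      (((SS_meas hU μ hf.symm hm A2 v₂).const_mul 1).mul (SS_meas hU μ hf.symm hm A4 v₄))
      (fun x => by
        rw [one_mul, abs_mul]
        exact mul_le_one₀ (SS_abs μ hf.symm h1 A2 v₂ x) (abs_nonneg _)
          (SS_abs μ hf.symm h1 A4 v₄ x))
      (fun x t => by
        simp only [one_mul]
        rw [SS_update μ hf.symm A2 v₂ b n2b m2b x t, SS_update μ hf.symm A4 v₄ b n4b m4b x t])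
    simp only [one_mul] at p1 p2 p3
    unfold sDens
    rw [p1, p2, p3]
  have hS2 : ∫ x, SS μ f hf.symm A2 v₂ x ^ 2 ∂(Measure.pi fun _ => μ) ≤ cyT μ f 2 :=
    SS_sq hU hN μ hf A2 v₁ v₂ v₃ n12 n23 n13 (fun e he => (Finset.mem_filter.1 he).2)
      (Finset.mem_filter.2 ⟨h12, by simp⟩) (Finset.mem_filter.2 ⟨h23, by simp⟩)
  have hS4 : ∫ x, SS μ f hf.symm A4 v₄ x ^ 2 ∂(Measure.pi fun _ => μ) ≤ cyT μ f 2 := by
    refine SS_sq hU hN μ hf A4 v₃ v₄ v₁ n34 (Ne.symm n14) (Ne.symm n13)
      (fun e he => (Finset.mem_filter.1 he).2)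
      (Finset.mem_filter.2 ⟨Finset.mem_filter.2 ⟨h34, ?_⟩, by simp⟩)
      (Finset.mem_filter.2 ⟨Finset.mem_filter.2 ⟨h41, ?_⟩, by simp⟩)
    · rw [Sym2.mem_iff, not_or]
      exact ⟨n23, n24⟩
    · rw [Sym2.mem_iff, not_or]
      exact ⟨n24, Ne.symm n12⟩
  have hb1' : s(b, v₁) ∈ Ab := by
    refine Finset.mem_filter.2 ⟨Finset.mem_filter.2 ⟨Finset.mem_filter.2 ⟨hb1, ?_⟩, ?_⟩, by simp⟩
    · rw [Sym2.mem_iff, not_or]
      exact ⟨n2b, Ne.symm n12⟩
    · rw [Sym2.mem_iff, not_or]
      exact ⟨n4b, Ne.symm n14⟩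
  have i2 : Integrable (fun x => SS μ f hf.symm A2 v₂ x ^ 2) (Measure.pi fun _ => μ) :=
    intb ((SS_meas hU μ hf.symm hm A2 v₂).pow_const 2) (C := 1) fun x => by
      rw [abs_pow]
      exact pow_le_one₀ (abs_nonneg _) (SS_abs μ hf.symm h1 A2 v₂ x)
  have i4 : Integrable (fun x => SS μ f hf.symm A4 v₄ x ^ 2) (Measure.pi fun _ => μ) :=
    intb ((SS_meas hU μ hf.symm hm A4 v₄).pow_const 2) (C := 1) fun x => by
      rw [abs_pow]
      exact pow_le_one₀ (abs_nonneg _) (SS_abs μ hf.symm h1 A4 v₄ x)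
  rw [e0]
  refine (abs_integral_le_integral_abs).trans ?_
  refine (integral_mono_of_nonneg (Filter.Eventually.of_forall fun x => abs_nonneg _)
    (((i2.add i4).div_const 2).const_mul κ)
    (Filter.Eventually.of_forall fun x => ?_)).trans ?_
  · show |SS μ f hf.symm A2 v₂ x * SS μ f hf.symm A4 v₄ x *
      SS μ f hf.symm Ab b x * ∏ e ∈ Bb, sVal f hf.symm x e| ≤
      κ * ((SS μ f hf.symm A2 v₂ x ^ 2 + SS μ f hf.symm A4 v₄ x ^ 2) / 2)
    have q1 := SS_le μ hf Ab b v₁ (Ne.symm n1b) hb1' x
    have q2 := prod_abs hf.symm h1 x Bb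
    rw [abs_mul, abs_mul, abs_mul]
    have q3 : |SS μ f hf.symm A2 v₂ x| * |SS μ f hf.symm A4 v₄ x| ≤
        (SS μ f hf.symm A2 v₂ x ^ 2 + SS μ f hf.symm A4 v₄ x ^ 2) / 2 := by
      nlinarith [sq_nonneg (|SS μ f hf.symm A2 v₂ x| - |SS μ f hf.symm A4 v₄ x|),
        sq_abs (SS μ f hf.symm A2 v₂ x), sq_abs (SS μ f hf.symm A4 v₄ x)]
    have q4 : 0 ≤ |SS μ f hf.symm A2 v₂ x| * |SS μ f hf.symm A4 v₄ x| := by positivity
    calc |SS μ f hf.symm A2 v₂ x| * |SS μ f hf.symm A4 v₄ x| * |SS μ f hf.symm Ab b x| *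
          |∏ e ∈ Bb, sVal f hf.symm x e|
        ≤ |SS μ f hf.symm A2 v₂ x| * |SS μ f hf.symm A4 v₄ x| * |SS μ f hf.symm Ab b x| * 1 :=
          mul_le_mul_of_nonneg_left q2 (by positivity)
      _ ≤ (SS μ f hf.symm A2 v₂ x ^ 2 + SS μ f hf.symm A4 v₄ x ^ 2) / 2 * κ := by
          rw [mul_one]
          exact mul_le_mul q3 q1 (abs_nonneg _) (q4.trans q3)
      _ = _ := by ring
  · rw [integral_const_mul, integral_div]
    have e9 := integral_add i2 i4
    refine mul_le_mul_of_nonneg_left ?_ hκ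
    refine (div_le_div_of_nonneg_right (le_of_eq e9) (by norm_num)).trans ?_
    linarith

end Pool.FOT
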