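import Pool.Agent.H34.FOG.K23
import Pool.Agent.H22.FOT.SM2

/-! # FOG LF2: two leaf edges and a third edge -/

set_option autoImplicit false

open MeasureTheory Set

namespace Pool.FOT

namespace LF2a

open H97 K23a

variable {V Ω : Type} [Fintype V] [DecidableEq V] [MeasurableSpace Ω]

theorem kap_nonneg {μ : Measure Ω} [IsProbabilityMeasure μ] {f : Ω → Ω → ℝ} {κ : ℝ}
    (hf : FOk μ f κ) : 0 ≤ κ := by
  rcases isEmpty_or_nonempty Ω with h | h
  · exfalso
    have h0 : μ = 0 := by
      have : (univ : Set Ω) = ∅ := Set.univ_eq_empty_iff.2 h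
      exact Measure.measure_univ_eq_zero.1 (by rw [this, measure_empty])
    have h1 := measure_univ (μ := μ)
    rw [h0] at h1
    simp at h1
  · exact (integral_nonneg fun y => abs_nonneg _).trans (hf.row (Classical.choice h))

/-- The row average is measurable. -/
theorem row_meas {μ : Measure Ω} [IsProbabilityMeasure μ] {f : Ω → Ω → ℝ} {κ : ℝ}
    (hf : FOk μ f κ) : Measurable (fun x => ∫ y, f x y ∂μ) :=
  (hf.meas.stronglyMeasurable.integral_prod_right').measurable

theorem row_abs {μ : Measure Ω} [IsProbabilityMeasure μ] {f : Ω → Ω → ℝ} {κ : ℝ}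
    (hf : FOk μ f κ) (x : Ω) : |∫ y, f x y ∂μ| ≤ 1 := by
  have := norm_integral_le_of_norm_le_const (μ := μ) (C := 1) (f := fun t => f x t)
    (Filter.Eventually.of_forall fun t => by
      rw [Real.norm_eq_abs]
      exact hf.bdd _ _)
  simpa [Real.norm_eq_abs] using this

theorem SS_leaf {μ : Measure Ω} [IsProbabilityMeasure μ] {f : Ω → Ω → ℝ} {κ : ℝ}
    (hf : FOk μ f κ) (v w : V) (hvw : v ≠ w) (x : V → Ω) :
    SS μ f hf.symm {s(v, w)} v x = ∫ y, f (x w) y ∂μ := by
  unfold SS
  refine integral_congr_ae (Filter.Eventually.of_forall fun t => ?_)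
  show ∏ e ∈ {s(v, w)}, sVal f hf.symm (Function.update x v t) e = f (x w) t
  rw [Finset.prod_singleton, sVal_mk, Function.update_self, Function.update_of_ne hvw.symm,
    hf.symm]

/-- The square of a row average times an edge. -/
theorem row_edge (hU : UPDStmt) {μ : Measure Ω} [IsProbabilityMeasure μ] {f : Ω → Ω → ℝ}
    {κ : ℝ} (hf : FOk μ f κ) (w a b : V) (haw : a ≠ w) (hab : a ≠ b) :
    ∫ x : V → Ω, (∫ y, f (x w) y ∂μ) ^ 2 * |f (x a) (x b)| ∂(Measure.pi fun _ => μ) ≤
      κ * ∫ x, (∫ y, f x y ∂μ) ^ 2 ∂μ := by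
  have hd := row_meas hf
  have hdw : Measurable (fun x : V → Ω => (∫ y, f (x w) y ∂μ) ^ 2) :=
    (hd.comp (measurable_pi_apply w)).pow_const 2
  have hab' : Measurable (fun x : V → Ω => (x a, x b)) :=
    (measurable_pi_apply a).prodMk (measurable_pi_apply b)
  have hfm : Measurable (fun x : V → Ω => |f (x a) (x b)|) := (hf.meas.comp hab').abs
  rw [resample hU μ a (F := fun x => (∫ y, f (x w) y ∂μ) ^ 2 * |f (x a) (x b)|)
    (hdw.mul hfm) (C := 1) fun x => by
      rw [abs_mul, abs_abs, abs_pow]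
      exact mul_le_one₀ (pow_le_one₀ (abs_nonneg _) (row_abs hf _)) (abs_nonneg _)
        (hf.bdd _ _)]
  have hmp : MeasurePreserving (fun x : V → Ω => x w) (Measure.pi fun _ => μ) μ :=
    measurePreserving_eval (fun _ : V => μ) w
  have e1 : ∫ x, (∫ y, f x y ∂μ) ^ 2 ∂μ =
      ∫ x : V → Ω, (∫ y, f (x w) y ∂μ) ^ 2 ∂(Measure.pi fun _ => μ) :=
    (Sm2Aux.integral_mp hmp (g := fun s => (∫ y, f s y ∂μ) ^ 2) (hd.pow_const 2)).symm
  rw [e1, ← integral_const_mul]
  have hi : Integrable (fun x : V → Ω => κ * (∫ y, f (x w) y ∂μ) ^ 2)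
      (Measure.pi fun _ => μ) :=
    (intb hdw (C := 1) fun x => by
      rw [abs_pow]
      exact pow_le_one₀ (abs_nonneg _) (row_abs hf _)).const_mul κ
  refine integral_mono_of_nonneg (Filter.Eventually.of_forall fun x =>
    integral_nonneg fun t => mul_nonneg (sq_nonneg _) (abs_nonneg _)) hi
    (Filter.Eventually.of_forall fun x => ?_)
  show ∫ t, (∫ y, f (Function.update x a t w) y ∂μ) ^ 2 *
    |f (Function.update x a t a) (Function.update x a t b)| ∂μ ≤ _
  simp only [Function.update_self, Function.update_of_ne haw.symm,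
    Function.update_of_ne hab.symm]
  rw [integral_const_mul, mul_comm κ]
  refine mul_le_mul_of_nonneg_left ?_ (sq_nonneg _)
  have e2 : (fun t => |f t (x b)|) = fun t => |f (x b) t| := by
    funext t
    rw [hf.symm]
  rw [e2]
  exact hf.row (x b)

/-- The same for an edge without orientation. -/
theorem row_edge' (hU : UPDStmt) {μ : Measure Ω} [IsProbabilityMeasure μ] {f : Ω → Ω → ℝ}
    {κ : ℝ} (hf : FOk μ f κ) (w : V) (e : Sym2 V) (he : ¬ e.IsDiag) :
    ∫ x : V → Ω, (∫ y, f (x w) y ∂μ) ^ 2 * |sVal f hf.symm x e| ∂(Measure.pi fun _ => μ) ≤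
      κ * ∫ x, (∫ y, f x y ∂μ) ^ 2 ∂μ := by
  induction e using Sym2.ind with
  | _ a b =>
    rw [Sym2.mk_isDiag_iff] at he
    simp only [sVal_mk]
    by_cases haw : a = w
    · have hbw : b ≠ w := fun h => he (haw.trans h.symm)
      have := row_edge hU hf w b a hbw (Ne.symm he)
      refine le_trans (le_of_eq ?_) this
      refine integral_congr_ae (Filter.Eventually.of_forall fun x => ?_)
      show _ = (∫ y, f (x w) y ∂μ) ^ 2 * |f (x b) (x a)|
      rw [hf.symm (x b)]
    · exact row_edge hU hf w a b haw he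

end LF2a

open H97 K23a LF2a

theorem t_lf2 (hU : UPDStmt) : LF2Stmt := by
  classical
  intro V Ω _ _ μ _ A f κ hf hd h3 v w v' w' hvw hvw' hne hv hv'
  have n1 : v ≠ w := by simpa using hd _ hvw
  have n2 : v' ≠ w' := by simpa using hd _ hvw'
  have n3 : v' ≠ w := by
    intro h
    exact hne (hv' _ hvw (by rw [h]; simp))
  have hm := hf.meas
  have h1 := hf.bdd
  have hrm := row_meas hf
  have f1 : (A.filter fun e => v ∈ e) = {s(v, w)} := by
    ext e
    rw [Finset.mem_filter, Finset.mem_singleton]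
    constructor
    · rintro ⟨h, h'⟩
      exact hv e h h'
    · rintro rfl
      exact ⟨hvw, by simp⟩
  have f2 : ((A.filter fun e => v ∉ e).filter fun e => v' ∈ e) = {s(v', w')} := by
    ext e
    rw [Finset.mem_filter, Finset.mem_filter, Finset.mem_singleton]
    constructor
    · rintro ⟨⟨h, _⟩, h'⟩
      exact hv' e h h'
    · rintro rfl
      exact ⟨⟨hvw', fun h => hne (hv _ hvw' h).symm⟩, by simp⟩
  obtain ⟨e3, he3, he31, he32⟩ : ∃ e ∈ A, e ≠ s(v, w) ∧ e ≠ s(v', w') := by
    by_contra hcon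
    push Not at hcon
    have hs : A ⊆ {s(v, w), s(v', w')} := by
      intro e he
      rw [Finset.mem_insert, Finset.mem_singleton]
      by_cases h : e = s(v, w)
      · exact Or.inl h
      · exact Or.inr (hcon e he h)
    have := Finset.card_le_card hs
    have := Finset.card_le_two (a := s(v, w)) (b := s(v', w'))
    omega
  have he3' : e3 ∈ ((A.filter fun e => v ∉ e).filter fun e => v' ∉ e) := by
    refine Finset.mem_filter.2 ⟨Finset.mem_filter.2 ⟨he3, fun h => he31 (hv e3 he3 h)⟩,
      fun h => he32 (hv' e3 he3 h)⟩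
  have e0 : sDens μ A f hf.symm = ∫ x : V → Ω, ((∫ y, f (x w) y ∂μ) * ∫ y, f (x w') y ∂μ) *
      ∏ e ∈ (A.filter fun e => v ∉ e).filter (fun e => v' ∉ e), sVal f hf.symm x e
        ∂(Measure.pi fun _ => μ) := by
    have p1 := peel hU μ hf.symm hm h1 A v (fun _ => 1) measurable_const
      (fun x => by simp) (fun x t => rfl)
    have p2 := peel hU μ hf.symm hm h1 (A.filter fun e => v ∉ e) v'
      (fun x => ∫ y, f (x w) y ∂μ) (hrm.comp (measurable_pi_apply w))
      (fun x => row_abs hf _)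
      (fun x t => by
        simp only [Function.update_of_ne n3.symm])
    rw [f2] at p2
    rw [f1] at p1
    simp only [one_mul, SS_leaf hf v w n1] at p1
    simp only [SS_leaf hf v' w' n2] at p2
    unfold sDens
    rw [p1, p2]
  rw [e0]
  refine (abs_integral_le_integral_abs).trans ?_
  have hi : ∀ u : V, Integrable (fun x : V → Ω => (∫ y, f (x u) y ∂μ) ^ 2 *
      |sVal f hf.symm x e3|) (Measure.pi fun _ => μ) := fun u =>
    intb (((hrm.comp (measurable_pi_apply u)).pow_const 2).mul
      (sVal_meas hf.symm hm e3).abs) (C := 1) fun x => by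
        rw [abs_mul, abs_abs, abs_pow]
        exact mul_le_one₀ (pow_le_one₀ (abs_nonneg _) (row_abs hf _)) (abs_nonneg _)
          (sVal_abs hf.symm h1 x e3)
  refine (integral_mono_of_nonneg (Filter.Eventually.of_forall fun x => abs_nonneg _)
    (((hi w).add (hi w')).div_const 2)
    (Filter.Eventually.of_forall fun x => ?_)).trans ?_
  · show |(∫ y, f (x w) y ∂μ) * (∫ y, f (x w') y ∂μ) *
      ∏ e ∈ (A.filter fun e => v ∉ e).filter (fun e => v' ∉ e), sVal f hf.symm x e| ≤
      ((∫ y, f (x w) y ∂μ) ^ 2 * |sVal f hf.symm x e3| +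
        (∫ y, f (x w') y ∂μ) ^ 2 * |sVal f hf.symm x e3|) / 2
    have hs : ({e3} : Finset (Sym2 V)) ⊆
        (A.filter fun e => v ∉ e).filter (fun e => v' ∉ e) :=
      Finset.singleton_subset_iff.2 he3'
    have q1 := prod_abs_mono hf.symm h1 x hs
    rw [Finset.prod_singleton] at q1
    rw [abs_mul, abs_mul]
    set p := ∫ y, f (x w) y ∂μ
    set q := ∫ y, f (x w') y ∂μ
    have q3 : |p| * |q| ≤ (p ^ 2 + q ^ 2) / 2 := by
      nlinarith [sq_nonneg (|p| - |q|), sq_abs p, sq_abs q]
    calc |p| * |q| * |∏ e ∈ (A.filter fun e => v ∉ e).filter (fun e => v' ∉ e),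
          sVal f hf.symm x e|
        ≤ |p| * |q| * |sVal f hf.symm x e3| := mul_le_mul_of_nonneg_left q1 (by positivity)
      _ ≤ (p ^ 2 + q ^ 2) / 2 * |sVal f hf.symm x e3| :=
          mul_le_mul_of_nonneg_right q3 (abs_nonneg _)
      _ = _ := by ring
  · rw [integral_div]
    have e9 := integral_add (hi w) (hi w')
    refine (div_le_div_of_nonneg_right (le_of_eq e9) (by norm_num)).trans ?_
    have r1 := row_edge' hU hf w e3 (hd e3 he3)
    have r2 := row_edge' hU hf w' e3 (hd e3 he3)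
    linarith

end Pool.FOT
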